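import Mathlib

namespace Pool.Agent.Results.MP_701998_an.NoDecay

open Set Filter Topology MeasureTheory Nat

noncomputable def N (x : ℝ) : ℝ := ‖(x : UnitAddCircle)‖

lemma N_le (x : ℝ) : N x ≤ |x| := QuotientAddGroup.norm_mk_le_norm

lemma N_add (x y : ℝ) : N (x + y) ≤ N x + N y := by
  unfold N; rw [AddCircle.coe_add]; exact norm_add_le _ _

lemma N_nat (n : ℕ) : N n = 0 := by simp [N, UnitAddCircle.norm_eq]

lemma N_cos {x : ℝ} (h : N x ≤ 1 / 6) : 1 / 2 ≤ Real.cos (2 * Real.pi * x) := by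
  rw [N, UnitAddCircle.norm_eq] at h
  rw [← Real.cos_sub_int_mul_two_pi _ (round x), ← Real.cos_pi_div_three, ← Real.cos_abs (_ - _),
    show 2 * Real.pi * x - round x * (2 * Real.pi) = 2 * Real.pi * (x - round x) by ring, abs_mul,
    abs_of_pos Real.two_pi_pos]
  exact Real.cos_le_cos_of_nonneg_of_le_pi (by positivity) (by linarith [Real.pi_pos])
    (by nlinarith [Real.pi_pos])

lemma fac {k m : ℕ} (h : k ≤ m) : (k ! : ℝ) / (m + 1)! ≤ 1 / (m + 1) := by
  rw [div_le_div_iff₀ (by positivity) (by positivity), factorial_succ, one_mul, mul_comm]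
  push_cast
  gcongr

def G : Set ℝ := {x | ∃ δ < 1 / 6, ∀ k : ℕ, N (k ! * x) ≤ δ}

lemma pre : Preperfect G := by
  rintro x ⟨δ, h1, h2⟩
  refine accPt_iff_nhds.2 fun U hU => ?_
  have t := tendsto_one_div_add_atTop_nhds_zero_nat (𝕜 := ℝ)
  have t2 : Tendsto (fun m : ℕ => x + 1 / ((m + 1)! : ℝ)) atTop (𝓝 x) := by
    simpa using (squeeze_zero (fun m => by positivity)
      (fun m => by simpa using fac (Nat.zero_le m)) t).const_add x
  obtain ⟨m, a, b⟩ := ((t2.eventually hU).and (t.eventually (gt_mem_nhds (sub_pos.2 h1)))).exists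
  refine ⟨_, ⟨a, δ + 1 / (m + 1), by linarith, fun k => ?_⟩, by simp; positivity⟩
  rw [mul_add, mul_one_div]
  refine (N_add _ _).trans (add_le_add (h2 k) ?_)
  rcases le_or_gt k m with h | h
  · exact (N_le _).trans ((abs_of_nonneg (by positivity)).trans_le (fac h))
  · rw [← Nat.cast_div (factorial_dvd_factorial h) (by positivity), N_nat]; positivity

lemma synd (F : Finset ℝ) : ∃ C > 0, ∀ s, ∃ t, |t - s| ≤ C ∧ ∀ f ∈ F, N (t * f) ≤ 1 / 24 := by
  let g : ℝ → F → UnitAddCircle := fun s f => (s * f : ℝ)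
  obtain ⟨T, h1, h2, h3⟩ := Metric.finite_approx_of_totallyBounded
    (isCompact_univ.totallyBounded.subset (subset_univ (range g))) (1 / 24) (by norm_num)
  obtain ⟨S, -, h4, rfl⟩ := exists_subset_image_finite_and.1
    ⟨T, (image_univ (f := g)).symm ▸ h1, h2, rfl⟩
  obtain ⟨C, C0, hC⟩ := h4.isBounded.exists_pos_norm_le
  refine ⟨C, C0, fun s => ?_⟩
  obtain ⟨_, ⟨u, hu, rfl⟩, h⟩ := mem_iUnion₂.1 (h3 ⟨s, rfl⟩)
  refine ⟨s - u, by simpa using hC u hu, fun f hf => ?_⟩
  have := (dist_le_pi_dist _ _ ⟨f, hf⟩).trans_lt (Metric.mem_ball.1 h)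
  rw [N, sub_mul, AddCircle.coe_sub, ← dist_eq_norm]
  exact this.le

lemma pat (F : Finset ℝ) : ∃ b ≠ 0, ∀ f ∈ F, b * f ∈ G := by
  obtain ⟨C, C0, hC⟩ := synd F
  obtain ⟨M, M0, hM⟩ := F.finite_toSet.isBounded.exists_pos_norm_le
  obtain ⟨K, hK⟩ := exists_nat_ge (84 * C * M)
  choose t h1 h2 using hC
  let b : ℕ → ℝ := fun j => Nat.rec (t (4 * C) / (K + 1)!)
    (fun j x => t ((K + 1 + (j + 1))! * x) / (K + 1 + (j + 1))!) j
  have b1 : ∀ j, ∀ f ∈ F, N ((K + 1 + j)! * b j * f) ≤ 1 / 24 := fun j f hf => by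
    cases j <;> simp only [b, add_zero, Nat.rec_zero] <;>
      rw [mul_div_cancel₀ _ (by positivity)] <;> exact h2 _ f hf
  have b2 : ∀ j, |b (j + 1) - b j| ≤ C / (K + 1 + (j + 1))! := fun j => by
    rw [le_div_iff₀ (by positivity), ← abs_of_pos (show (0 : ℝ) < (K + 1 + (j + 1))! by positivity),
      ← abs_mul, sub_mul, mul_comm (b j)]
    simp only [b]
    rw [div_mul_cancel₀ _ (by positivity)]
    exact h1 _
  obtain ⟨x, hx⟩ := IsCompact.nonempty_iInter_of_sequence_nonempty_isCompact_isClosed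
    (fun j => Metric.closedBall (b j) (2 * C / (K + 1 + j + 1)!))
    (fun j => Metric.closedBall_subset_closedBall' (by
      have := mul_le_mul_of_nonneg_left (show (1 : ℝ) / (K + 1 + (j + 1) + 1)! ≤
        1 / (2 * (K + 1 + (j + 1))!) from by
          rw [factorial_succ (K + 1 + (j + 1))]; push_cast; gcongr; linarith) C0.le
      have := b2 j
      rw [Real.dist_eq, add_assoc _ j]
      ring_nf at *; linarith))
    (fun j => Metric.nonempty_closedBall.2 (by positivity)) (isCompact_closedBall _ _)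
    fun _ => Metric.isClosed_closedBall
  have hx : ∀ j, |x - b j| ≤ 2 * C / (K + 1 + j + 1)! := fun j => mem_iInter.1 hx j
  have x0 : 0 < x ∧ x ≤ 7 * C / (K + 1)! := by
    have a := abs_le.1 ((hx 0).trans (show _ ≤ 2 * C / (K + 1)! by gcongr; omega))
    have c := abs_le.1 (h1 (4 * C))
    have p : (0 : ℝ) < (K + 1)! := by positivity
    simp only [b, Nat.rec_zero] at a
    rw [← neg_div, le_sub_iff_add_le, sub_le_iff_le_add, ← add_div, ← add_div] at a
    exact ⟨(div_pos (by linarith) p).trans_le a.1, a.2.trans (by gcongr; linarith)⟩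
  have fin : ∀ {k m : ℕ} {y c f : ℝ}, k ≤ m → K ≤ m → f ∈ F → |y| ≤ c * C / (m + 1)! → 0 < c →
      N (k ! * (y * f)) ≤ c / 84 := fun {k m y c f} a1 a2 hf hy c0 => by
    have a2 : (K : ℝ) ≤ m := by exact_mod_cast a2
    refine (N_le _).trans ?_
    rw [abs_mul, abs_mul, Nat.abs_cast]
    calc _ ≤ k ! * (c * C / (m + 1)! * M) := by gcongr; exact hM f hf
      _ = k ! / (m + 1)! * (c * C * M) := by ring
      _ ≤ 1 / (m + 1) * (c * C * M) := mul_le_mul_of_nonneg_right (fac a1) (by positivity)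
      _ ≤ _ := by rw [one_div_mul_eq_div, div_le_div_iff₀ (by positivity) (by norm_num)]; nlinarith
  refine ⟨x, x0.1.ne', fun f hf => ⟨1 / 12, by norm_num, fun k => ?_⟩⟩
  rcases le_or_gt k K with h | h
  · exact (fin h le_rfl hf ((abs_of_pos x0.1).trans_le x0.2) (by norm_num)).trans (by norm_num)
  · obtain ⟨j, rfl⟩ := Nat.exists_eq_add_of_le h
    have := N_add ((K + 1 + j)! * b j * f) ((K + 1 + j)! * ((x - b j) * f))
    rw [show ((K + 1 + j)! : ℝ) * b j * f + (K + 1 + j)! * ((x - b j) * f) =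
      (K + 1 + j)! * (x * f) by ring] at this
    linarith [b1 j f hf, fin le_rfl (by omega) hf (hx j) two_pos]

theorem result : ∃ E : Set ℝ, Perfect E ∧
    (∀ F : Finset ℝ, ∃ a b : ℝ, b ≠ 0 ∧ ∀ f ∈ F, a + b * f ∈ E) ∧
    ∀ μ : Measure ℝ, IsFiniteMeasure μ → μ ≠ 0 → μ.support ⊆ E →
      ¬ Tendsto (fun ξ : ℝ => ∫ x, Complex.exp (-2 * Real.pi * Complex.I * x * ξ) ∂μ)
        (cocompact ℝ) (𝓝 0) := by
  refine ⟨closure G, pre.perfect_closure, fun F => ?_, fun μ _ h0 hs h => ?_⟩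
  · obtain ⟨b, h1, h2⟩ := pat F
    exact ⟨0, b, h1, fun f hf => subset_closure (by simpa using h2 f hf)⟩
  have t := (Complex.continuous_re.tendsto _).comp ((h.mono_left atTop_le_cocompact).comp
    (tendsto_natCast_atTop_atTop.comp factorial_tendsto_atTop))
  have : 1 / 2 * μ.real univ ≤ 0 := ge_of_tendsto' (x := atTop) t fun k => by
    have e : ∀ x : ℝ, -2 * Real.pi * Complex.I * x * (k ! : ℝ) =
      (-(2 * Real.pi * (k ! * x)) : ℝ) * Complex.I := fun x => by push_cast; ring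
    have i : Integrable (fun x : ℝ => Complex.exp (-2 * Real.pi * Complex.I * x * (k ! : ℝ))) μ :=
      (integrable_const 1).mono' (by fun_prop) (Eventually.of_forall fun x => by
        rw [e, Complex.norm_exp_ofReal_mul_I])
    refine le_of_le_of_eq ?_ (integral_re i)
    rw [mul_comm, ← smul_eq_mul, ← integral_const]
    refine integral_mono_ae (integrable_const _) i.re ?_
    filter_upwards [μ.support_mem_ae] with x hx
    rw [e, RCLike.re_to_complex, Complex.exp_ofReal_mul_I_re, Real.cos_neg]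
    exact closure_minimal (t := {x | 1 / 2 ≤ Real.cos (2 * Real.pi * (k ! * x))})
      (fun x hx => N_cos ((hx.choose_spec.2 k).trans hx.choose_spec.1.le)) (isClosed_le (by fun_prop) (by fun_prop)) (hs hx)
  have : NeZero μ := ⟨h0⟩
  have : 0 < μ.real univ := measureReal_univ_pos
  linarith

end Pool.Agent.Results.MP_701998_an.NoDecay
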